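import Mathlib
import Pool.Agent.H8.DD

set_option autoImplicit false

namespace Pool.Agent.Results.MP_414e75_gt.T1

theorem result : ∃ (X : Type) (_ : TopologicalSpace X),
    T1Space X ∧ HereditarilyLindelofSpace X ∧
    ∃ N : X → Set X, (∀ x, IsOpen (N x) ∧ x ∈ N x) ∧
      ∀ D : Set X, IsClosed D → DiscreteTopology D → (⋃ d ∈ D, N d) ≠ Set.univ := by
  obtain ⟨X, t, h1, h2, h3⟩ := Pool.Agent.H8.DD.main
  push Not at h3
  obtain ⟨U, hU, h4⟩ := h3
  refine ⟨X, t, h1, h2, fun x => interior (U x),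
    fun x => ⟨isOpen_interior, mem_interior_iff_mem_nhds.2 (hU x)⟩, fun D _ hD e => h4 D hD ?_⟩
  exact Set.eq_univ_of_univ_subset (e ▸ Set.iUnion₂_mono fun _ _ => interior_subset)

end Pool.Agent.Results.MP_414e75_gt.T1
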